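import Pool.Agent.Y258.SD.U

set_option autoImplicit false
set_option linter.unusedSectionVars false

/-!
# Jobs C6 and C8: density of the allowed sets, mean of the Fourier bound
-/

namespace Pool.Agent.Y290.SD

open Finset Pool.Agent.H470D4 Pool.Agent.Y258
open Pool.Agent.H935R2.PS (La uu nn dl mx Suit)

section gen
variable {q M B n : ℕ} [Fact q.Prime]

/-- the Fourier bound as a sum over all vectors -/
lemma RR_eq (c : Flg q M B n) (ω : Pth q B) (l : Fin (n+2) → ℕ) (r : ℕ) :
    RR c ω l r = ∑ H : Option (Fin (n+2)) → ZMod q,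
      ii (H none ≠ 0 ∧ Rel c ω l r H) * ((q:ℝ) ^ dm M B l r * wm H) := by
  unfold RR
  rw [sum_filter]
  refine sum_congr rfl fun H _ => ?_
  by_cases h : H none ≠ 0 ∧ Rel c ω l r H
  · rw [if_pos h, ii_true h, one_mul]
  · rw [if_neg h, ii_false h, zero_mul]

lemma card_opt (n : ℕ) : Fintype.card (Option (Fin (n+2))) = n + 3 := by
  rw [Fintype.card_option, Fintype.card_fin]

lemma qpos : (0:ℝ) < q := by
  exact_mod_cast (Fact.out : q.Prime).pos

/-- one relation, real form -/
lemma sum_ii_Rel {c : Flg q M B n} (hc : IsFlags c) {K7 r : ℕ} {b : Fin M} {ω : Pth q B}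
    {l : Fin (n+2) → ℕ} (hE : Exc c ω r) (hK : n + 2 ≤ K7) (hl : l ∈ IL M B n K7 r b)
    (H : Option (Fin (n+2)) → ZMod q) (hH : H none ≠ 0) :
    ∑ z : Blk q B, ii (Rel c (Function.update ω (r * M + (M - 1 - b)) z) l r H) =
      (q:ℝ) ^ B / (q:ℝ) ^ dm M B l r := by
  classical
  have h1 := card_Rel hc hE hK hl H hH
  have hq : (0:ℝ) < (q:ℝ) ^ dm M B l r := pow_pos qpos _
  rw [eq_div_iff hq.ne', ← card_eq_sum_ii]
  have h2 : ((((univ : Finset (Blk q B)).filter (fun z =>
      Rel c (Function.update ω (r * M + (M - 1 - b)) z) l r H)).card : ℕ) : ℝ) *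
      (q:ℝ) ^ dm M B l r = (q:ℝ) ^ B := by
    exact_mod_cast h1
  rw [← h2]

lemma two_pow_La (D : ℕ) : ((2:ℝ) ^ (D * La q)) ≤ (q:ℝ) ^ D := by
  have h1 : 2 ^ La q ≤ q := Nat.pow_log_le_self 2 (Fact.out : q.Prime).pos.ne'
  rw [mul_comm, pow_mul]
  exact pow_le_pow_left₀ (by positivity) (by exact_mod_cast h1) D

/-- the number of interior levels -/
lemma card_IL (K7 r β : ℕ) (hK : n + 2 ≤ K7) :
    (IL M B n K7 r β).card ≤ (n + 2) * (B * (M * B) ^ n) := by
  classical
  have hsub : IL M B n K7 r β ⊆ (Finset.Ico (M * B - r - (n + 2)) (M * B - r)).biUnion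
      (fun s => (Fintype.piFinset (fun _ : Fin (n+2) => range (M * B))).filter
        (fun l => ∑ a, l a = s ∧ β * B ≤ l 0 ∧ l 0 < (β+1) * B)) := by
    intro l hl
    rw [mem_IL] at hl
    obtain ⟨h1, h2, h3, h4, h5⟩ := hl
    rw [mem_biUnion]
    refine ⟨∑ a, l a, ?_, ?_⟩
    · rw [Finset.mem_Ico]; omega
    · rw [mem_filter, Fintype.mem_piFinset]
      refine ⟨fun a => Finset.mem_range.2 (h1 a), rfl, h2, by omega⟩
  refine (card_le_card hsub).trans (card_biUnion_le.trans ?_)
  refine (sum_le_sum (fun s _ => card_fix (n := n) (M * B) B β s)).trans ?_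
  rw [sum_const, smul_eq_mul, Nat.card_Ico]
  exact Nat.mul_le_mul_right _ (by omega)

end gen

/-- **C8** -/
theorem C8_of (hA : St_A6a) : St_C8 := by
  intro n
  obtain ⟨C, hC, hA'⟩ := hA (n + 3)
  refine ⟨⌈C⌉₊, ?_⟩
  intro q _ hq M B c hc K7 hK ω r b l hl hE
  have hw := hA' q hq (Option (Fin (n+2))) (card_opt n)
  have hqp : (0:ℝ) < (q:ℝ) ^ dm M B l r := pow_pos qpos _
  have hLa : (0:ℝ) ≤ (La q : ℝ) ^ (n+3) := by positivity
  calc ∑ z : Blk q B, RR c (Function.update ω (r * M + (M - 1 - b)) z) l r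
      = ∑ z : Blk q B, ∑ H : Option (Fin (n+2)) → ZMod q,
          ii (H none ≠ 0 ∧ Rel c (Function.update ω (r * M + (M - 1 - b)) z) l r H) *
            ((q:ℝ) ^ dm M B l r * wm H) := by
        refine sum_congr rfl fun z _ => RR_eq _ _ _ _
    _ = ∑ H : Option (Fin (n+2)) → ZMod q, ∑ z : Blk q B,
          ii (H none ≠ 0 ∧ Rel c (Function.update ω (r * M + (M - 1 - b)) z) l r H) *
            ((q:ℝ) ^ dm M B l r * wm H) := sum_comm
    _ ≤ ∑ H : Option (Fin (n+2)) → ZMod q, (q:ℝ) ^ B * wm H := by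
        refine sum_le_sum fun H _ => ?_
        rw [← sum_mul]
        by_cases hH : H none ≠ 0
        · have e : ∀ z : Blk q B, ii (H none ≠ 0 ∧
              Rel c (Function.update ω (r * M + (M - 1 - b)) z) l r H) =
              ii (Rel c (Function.update ω (r * M + (M - 1 - b)) z) l r H) := fun z =>
            ii_congr ⟨fun h => h.2, fun h => ⟨hH, h⟩⟩
          rw [sum_congr rfl (fun z _ => e z), sum_ii_Rel hc hE hK hl H hH]
          apply le_of_eq
          field_simp
        · have e : ∀ z : Blk q B, ii (H none ≠ 0 ∧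
              Rel c (Function.update ω (r * M + (M - 1 - b)) z) l r H) = 0 := fun z =>
            ii_false fun h => hH h.1
          rw [sum_congr rfl (fun z _ => e z), sum_const_zero, zero_mul]
          have := wm_nonneg H
          positivity
    _ = (q:ℝ) ^ B * ∑ H : Option (Fin (n+2)) → ZMod q, wm H := by rw [mul_sum]
    _ ≤ (q:ℝ) ^ B * (C * (La q : ℝ) ^ (n+3)) := mul_le_mul_of_nonneg_left hw (by positivity)
    _ ≤ (q:ℝ) ^ B * (⌈C⌉₊ * (La q : ℝ) ^ (n+3)) :=
        mul_le_mul_of_nonneg_left (mul_le_mul_of_nonneg_right (Nat.le_ceil C) hLa) (by positivity)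

/-- **C6** -/
theorem C6_of (hA : St_A6b) : St_C6 := by
  classical
  intro n
  obtain ⟨C, hC, hA'⟩ := hA (n + 3) (by omega)
  refine ⟨2 * (n + 2) * ⌈C⌉₊, ?_⟩
  intro q _ hq M B c hc hM K0 K7 hK hbig j ω
  have hcardB : Fintype.card (Blk q B) = q ^ B := by
    rw [Fintype.card_fun, ZMod.card, Fintype.card_fin]
  by_cases hE : Exc c ω (j / M)
  swap
  · have h1 : AlS c K0 K7 j ω = univ := by
      unfold AlS
      rw [filter_true_of_mem]
      intro z _ h
      exact absurd h hE
    rw [h1, card_univ, hcardB]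
    omega
  set r := j / M with hr
  have hk : j % M < M := Nat.mod_lt _ hM
  set b : Fin M := ⟨M - 1 - j % M, by omega⟩ with hb
  have hbv : (b : ℕ) = M - 1 - j % M := rfl
  have hj : j = r * M + (M - 1 - (b:ℕ)) := by
    have h1 : M * (j / M) + j % M = j := Nat.div_add_mod j M
    rw [hbv, hr, mul_comm (j / M) M]
    omega
  -- the complement
  set S := (univ : Finset (Blk q B)).filter (fun z => z ∉ AlS c K0 K7 j ω) with hS
  have hadd : (AlS c K0 K7 j ω).card + S.card = q ^ B := by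
    rw [← hcardB, ← card_univ, ← card_filter_add_card_filter_not (s := univ)
      (fun z => z ∈ AlS c K0 K7 j ω)]
    congr 2
    ext z
    simp
  suffices h : 2 * S.card ≤ q ^ B by omega
  have hsub : S ⊆ (IL M B n K7 r b).biUnion (fun l =>
      ((univ : Finset (Option (Fin (n+2)) → ZMod q)).filter (fun H => H none ≠ 0 ∧
        Bd (dm M B l r) K0 H)).biUnion (fun H => (univ : Finset (Blk q B)).filter (fun z =>
        Rel c (Function.update ω (r * M + (M - 1 - b)) z) l r H))) := by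
    intro z hz
    rw [hS, mem_filter] at hz
    have h2 := hz.2
    unfold AlS at h2
    rw [mem_filter] at h2
    push Not at h2
    obtain ⟨_, l, hl, hG⟩ := h2 (mem_univ z)
    rw [← hr, ← hbv] at hl
    unfold Gd at hG
    push Not at hG
    obtain ⟨H, hH0, hH1, hH2⟩ := hG
    rw [mem_biUnion]
    refine ⟨l, hl, ?_⟩
    rw [mem_biUnion]
    refine ⟨H, mem_filter.2 ⟨mem_univ _, hH0, hH2⟩, mem_filter.2 ⟨mem_univ _, ?_⟩⟩
    rw [← hj]
    exact hH1
  have hLa0 : (0:ℝ) ≤ (La q : ℝ) ^ (n+2) := by positivity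
  have hreal : (S.card : ℝ) ≤ ∑ l ∈ IL M B n K7 r b, (q:ℝ) ^ B * (C * (La q : ℝ) ^ (n+2) / 2 ^ K0) := by
    calc (S.card : ℝ) ≤ ((∑ l ∈ IL M B n K7 r b, ∑ H ∈
          ((univ : Finset (Option (Fin (n+2)) → ZMod q)).filter (fun H => H none ≠ 0 ∧
          Bd (dm M B l r) K0 H)), ((univ : Finset (Blk q B)).filter (fun z =>
          Rel c (Function.update ω (r * M + (M - 1 - b)) z) l r H)).card : ℕ) : ℝ) := by
          refine Nat.cast_le.2 ?_
          refine (card_le_card hsub).trans (card_biUnion_le.trans ?_)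
          exact sum_le_sum fun l _ => card_biUnion_le
      _ = ∑ l ∈ IL M B n K7 r b, ∑ H ∈
          ((univ : Finset (Option (Fin (n+2)) → ZMod q)).filter (fun H => H none ≠ 0 ∧
          Bd (dm M B l r) K0 H)), (((univ : Finset (Blk q B)).filter (fun z =>
          Rel c (Function.update ω (r * M + (M - 1 - b)) z) l r H)).card : ℝ) := by
          push_cast; rfl
      _ ≤ ∑ l ∈ IL M B n K7 r b, (q:ℝ) ^ B * (C * (La q : ℝ) ^ (n+2) / 2 ^ K0) := by
          refine sum_le_sum fun l hl => ?_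
          have hqD : (0:ℝ) < (q:ℝ) ^ dm M B l r := pow_pos qpos _
          have e1 : ∀ H ∈ ((univ : Finset (Option (Fin (n+2)) → ZMod q)).filter (fun H =>
              H none ≠ 0 ∧ Bd (dm M B l r) K0 H)),
              (((univ : Finset (Blk q B)).filter (fun z =>
              Rel c (Function.update ω (r * M + (M - 1 - b)) z) l r H)).card : ℝ) =
              (q:ℝ) ^ B / (q:ℝ) ^ dm M B l r := by
            intro H hH
            rw [mem_filter] at hH
            rw [card_eq_sum_ii]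
            exact sum_ii_Rel hc hE hK hl H hH.2.1
          rw [sum_congr rfl e1, sum_const, nsmul_eq_mul]
          have e2 : ((((univ : Finset (Option (Fin (n+2)) → ZMod q)).filter (fun H =>
              H none ≠ 0 ∧ Bd (dm M B l r) K0 H)).card : ℕ) : ℝ) ≤
              C * (La q : ℝ) ^ (n + 3 - 1) * 2 ^ (dm M B l r * La q) / 2 ^ K0 := by
            refine le_trans ?_ (hA' q hq (Option (Fin (n+2))) (card_opt n) (dm M B l r) K0)
            refine Nat.cast_le.2 (card_le_card ?_)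
            intro H hH
            rw [mem_filter] at hH ⊢
            exact ⟨hH.1, hH.2.2⟩
          have e3 : n + 3 - 1 = n + 2 := by omega
          rw [e3] at e2
          have e4 := two_pow_La (q := q) (dm M B l r)
          calc _ ≤ (C * (La q : ℝ) ^ (n + 2) * 2 ^ (dm M B l r * La q) / 2 ^ K0) *
                ((q:ℝ) ^ B / (q:ℝ) ^ dm M B l r) :=
                mul_le_mul_of_nonneg_right e2 (by positivity)
            _ ≤ (C * (La q : ℝ) ^ (n + 2) * (q:ℝ) ^ dm M B l r / 2 ^ K0) *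
                ((q:ℝ) ^ B / (q:ℝ) ^ dm M B l r) := by
                gcongr
            _ = (q:ℝ) ^ B * (C * (La q : ℝ) ^ (n+2) / 2 ^ K0) := by
                field_simp
  rw [sum_const, nsmul_eq_mul] at hreal
  have hIL : (((IL M B n K7 r b).card : ℕ) : ℝ) ≤ (n + 2) * (B * ((M * B + 1 : ℕ):ℝ) ^ n) := by
    have h1 := card_IL (M := M) (B := B) (n := n) K7 r b hK
    have h2 : (n + 2) * (B * (M * B) ^ n) ≤ (n + 2) * (B * (M * B + 1) ^ n) := by gcongr; omega
    exact_mod_cast h1.trans h2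
  have hbigR : (2 * (n + 2) * ⌈C⌉₊ : ℝ) * (B * ((M * B + 1 : ℕ):ℝ) ^ n * (La q:ℝ) ^ (n + 2)) ≤
      2 ^ K0 := by exact_mod_cast hbig
  have hceil := Nat.le_ceil C
  have h2K : (0:ℝ) < 2 ^ K0 := by positivity
  have hfin : (2 * S.card : ℝ) ≤ (q:ℝ) ^ B := by
    calc (2 * S.card : ℝ) ≤ 2 * (((n + 2) * (B * ((M * B + 1 : ℕ):ℝ) ^ n)) *
          ((q:ℝ) ^ B * (⌈C⌉₊ * (La q : ℝ) ^ (n+2) / 2 ^ K0))) := by
          refine mul_le_mul_of_nonneg_left (hreal.trans ?_) (by norm_num)
          gcongr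
      _ = (q:ℝ) ^ B * (((2 * (n + 2) * ⌈C⌉₊ : ℝ) *
          (B * ((M * B + 1 : ℕ):ℝ) ^ n * (La q:ℝ) ^ (n + 2))) / 2 ^ K0) := by ring
      _ ≤ (q:ℝ) ^ B * 1 := by
          refine mul_le_mul_of_nonneg_left ?_ (by positivity)
          rw [div_le_one h2K]
          exact hbigR
      _ = (q:ℝ) ^ B := mul_one _
  exact_mod_cast hfin

end Pool.Agent.Y290.SD
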