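import Pool.Agent.Y290.SD.C68

set_option autoImplicit false
set_option linter.unusedSectionVars false

/-!
# Jobs C9, C13 and C14: boundedness, distant pairs, second moment
-/

namespace Pool.Agent.Y290.SD

open Finset Pool.Agent.H470D4 Pool.Agent.Y258
open Pool.Agent.H935R2.PS (La uu nn dl mx Suit)

section gen
variable {q M B n : ℕ} [Fact q.Prime]

lemma dl_zero : dl (0 : ZMod q) = 0 := by
  unfold dl nn
  simp

lemma sz_opt (H : Option (Fin (n+2)) → ZMod q) :
    sz H = dl (H none) + sz (fun a => H (some a)) := by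
  unfold sz
  rw [Fintype.sum_option]

lemma IL_dm {K7 r β : ℕ} {l : Fin (n+2) → ℕ} (hl : l ∈ IL M B n K7 r β) :
    dm M B l r ≤ n + 2 := by
  rw [mem_IL] at hl
  unfold dm
  omega

/-- **C9** -/
theorem C9_of (hA : St_A6c) : St_C9 := by
  classical
  intro n
  obtain ⟨C, hC, hA'⟩ := hA (n + 3)
  refine ⟨⌈C⌉₊, ?_⟩
  intro q _ hq M B c K0 K7 ω r β l hβ hl hO hG
  have hD := IL_dm hl
  have h1 := hA' q hq (Option (Fin (n+2))) (card_opt n) (dm M B l r) K0 (by omega)
    (RelS c ω l r) (by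
      intro H hH hH0 hB
      rw [mem_RelS] at hH
      by_cases h0 : H none = 0
      · refine hO β hβ l hl (fun a => H (some a)) ?_ ?_ ?_
        · intro h
          apply hH0
          funext o
          cases o with
          | none => exact h0
          | some a => exact congrFun h a
        · intro v hv
          have h2 := hH v hv
          rw [h0, zero_mul, add_zero] at h2
          exact h2
        · unfold Y258.Bd at hB ⊢
          rw [sz_opt, h0, dl_zero, zero_add] at hB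
          exact hB
      · exact hG H h0 hH hB)
  have hLa : (0:ℝ) ≤ (La q : ℝ) ^ (n+3) := by positivity
  calc RR c ω l r ≤ ∑ h ∈ (univ : Finset (Option (Fin (n+2)) → ZMod q)).filter
        (fun h => h ∈ RelS c ω l r ∧ h ≠ 0), (q:ℝ) ^ dm M B l r * wm h := by
        unfold RR
        refine sum_le_sum_of_subset_of_nonneg ?_ ?_
        · intro H hH
          rw [mem_filter] at hH ⊢
          refine ⟨hH.1, hH.2.2, ?_⟩
          intro h
          apply hH.2.1
          rw [h]
          rfl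
        · intro H _ _
          exact mul_nonneg (by positivity) (wm_nonneg H)
    _ ≤ C * (La q : ℝ) ^ (n+3) * 2 ^ K0 := h1
    _ ≤ ⌈C⌉₊ * (La q : ℝ) ^ (n+3) * 2 ^ K0 := by
        have := Nat.le_ceil C
        gcongr

lemma sum_RR_pair_aux {c : Flg q M B n} (hc : IsFlags c) {K7 r : ℕ} {b : Fin M} {ω : Pth q B}
    {l l' : Fin (n+2) → ℕ} (hl : l ∈ IL M B n K7 r b) (hl' : l' ∈ IL M B n K7 r b)
    (hE : Exc c ω r) (h0 : dm M B (mxv l l') r = 0) (hP : PairG c K7 ω r)
    (H H' : Option (Fin (n+2)) → ZMod q) (hH : H none ≠ 0) (hH' : H' none ≠ 0) :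
    ∑ z : Blk q B, ii (Rel c (Function.update ω (r * M + (M - 1 - b)) z) l r H) *
      ii (Rel c (Function.update ω (r * M + (M - 1 - b)) z) l' r H') ≤
      (q:ℝ) ^ B / ((q:ℝ) ^ dm M B l r * (q:ℝ) ^ dm M B l' r) := by
  classical
  have h1 := card_Rel2 hc hl hl' (hP b b.2 l hl l' hl' h0) H H' hH hH'
  have h2 := finrank_sup_eq hE l l'
  rw [h0, add_zero] at h2
  rw [h2] at h1
  have hq : (0:ℝ) < (q:ℝ) ^ dm M B l r * (q:ℝ) ^ dm M B l' r :=
    mul_pos (pow_pos qpos _) (pow_pos qpos _)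
  rw [le_div_iff₀ hq]
  have e : ∑ z : Blk q B, ii (Rel c (Function.update ω (r * M + (M - 1 - b)) z) l r H) *
      ii (Rel c (Function.update ω (r * M + (M - 1 - b)) z) l' r H') =
      ((((univ : Finset (Blk q B)).filter (fun z =>
      Rel c (Function.update ω (r * M + (M - 1 - b)) z) l r H ∧
      Rel c (Function.update ω (r * M + (M - 1 - b)) z) l' r H')).card : ℕ) : ℝ) := by
    rw [card_eq_sum_ii]
    exact sum_congr rfl fun z _ => (ii_and _ _).symm
  rw [e, ← pow_add]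
  exact_mod_cast h1

/-- **C13** -/
theorem C13_of (hA : St_A6a) (hB : St_A6b) : St_C13 := by
  classical
  intro n
  obtain ⟨C1, hC1, hA'⟩ := hA (n + 3)
  obtain ⟨C2, hC2, hB'⟩ := hB (n + 3) (by omega)
  refine ⟨⌈C1 * C2⌉₊, ?_⟩
  intro q _ hq M B c hc K0 K7 hK ω r b l l' hl hl' h0 hE hP
  have hw := hA' q hq (Option (Fin (n+2))) (card_opt n)
  set D := dm M B l r with hD
  set D' := dm M B l' r with hD'
  have hb := hB' q hq (Option (Fin (n+2))) (card_opt n) D' K0
  rw [show n + 3 - 1 = n + 2 by omega] at hb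
  have hqD : (0:ℝ) < (q:ℝ) ^ D := pow_pos qpos _
  have hqD' : (0:ℝ) < (q:ℝ) ^ D' := pow_pos qpos _
  set U : Blk q B → Pth q B := fun z => Function.update ω (r * M + (M - 1 - b)) z with hU
  -- the failure of `Gd`
  have hfail : ∀ z, ii (¬ Gd c K0 (U z) l' r) ≤ ∑ H' : Option (Fin (n+2)) → ZMod q,
      ii (H' none ≠ 0 ∧ Bd D' K0 H') * ii (Rel c (U z) l' r H') := by
    intro z
    by_cases hG : Gd c K0 (U z) l' r
    · rw [ii_false (not_not_intro hG)]
      exact sum_nonneg fun H' _ => mul_nonneg (ii_nonneg _) (ii_nonneg _)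
    · rw [ii_true hG]
      unfold Gd at hG
      push Not at hG
      obtain ⟨H', h1, h2, h3⟩ := hG
      have h4 := single_le_sum (f := fun H' : Option (Fin (n+2)) → ZMod q =>
        ii (H' none ≠ 0 ∧ Bd D' K0 H') * ii (Rel c (U z) l' r H'))
        (fun H' _ => mul_nonneg (ii_nonneg _) (ii_nonneg _)) (mem_univ H')
      refine le_trans ?_ h4
      rw [ii_true ⟨h1, h3⟩, ii_true h2, one_mul]
  calc ∑ z : Blk q B, RR c (U z) l r * ii (¬ Gd c K0 (U z) l' r)
      ≤ ∑ z : Blk q B, (∑ H : Option (Fin (n+2)) → ZMod q,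
          ii (H none ≠ 0 ∧ Rel c (U z) l r H) * ((q:ℝ) ^ D * wm H)) *
          ∑ H' : Option (Fin (n+2)) → ZMod q,
            ii (H' none ≠ 0 ∧ Bd D' K0 H') * ii (Rel c (U z) l' r H') := by
        refine sum_le_sum fun z _ => ?_
        rw [← RR_eq]
        exact mul_le_mul_of_nonneg_left (hfail z) (RR_nonneg _ _ _ _)
    _ = ∑ H : Option (Fin (n+2)) → ZMod q, ∑ H' : Option (Fin (n+2)) → ZMod q,
          ((q:ℝ) ^ D * wm H) * ii (H' none ≠ 0 ∧ Bd D' K0 H') *
          ∑ z : Blk q B, ii (H none ≠ 0 ∧ Rel c (U z) l r H) * ii (Rel c (U z) l' r H') := by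
        simp only [sum_mul_sum]
        simp only [mul_sum]
        rw [sum_comm]
        refine sum_congr rfl fun H _ => ?_
        rw [sum_comm]
        refine sum_congr rfl fun H' _ => sum_congr rfl fun z _ => ?_
        ring
    _ ≤ ∑ H : Option (Fin (n+2)) → ZMod q, ∑ H' : Option (Fin (n+2)) → ZMod q,
          ((q:ℝ) ^ D * wm H) * ii (H' none ≠ 0 ∧ Bd D' K0 H') *
          ((q:ℝ) ^ B / ((q:ℝ) ^ D * (q:ℝ) ^ D')) := by
        refine sum_le_sum fun H _ => sum_le_sum fun H' _ => ?_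
        have hw0 := wm_nonneg H
        by_cases hH' : H' none ≠ 0 ∧ Bd D' K0 H'
        · by_cases hH : H none ≠ 0
          · refine mul_le_mul_of_nonneg_left ?_ (mul_nonneg (by positivity) (ii_nonneg _))
            have e : ∀ z : Blk q B, ii (H none ≠ 0 ∧ Rel c (U z) l r H) =
                ii (Rel c (U z) l r H) := fun z =>
              ii_congr ⟨fun h => h.2, fun h => ⟨hH, h⟩⟩
            simp only [e]
            exact sum_RR_pair_aux hc hl hl' hE h0 hP H H' hH hH'.1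
          · have e : ∀ z : Blk q B, ii (H none ≠ 0 ∧ Rel c (U z) l r H) = 0 := fun z =>
              ii_false fun h => hH h.1
            simp only [e, zero_mul, sum_const_zero, mul_zero]
            exact mul_nonneg (mul_nonneg (by positivity) (ii_nonneg _)) (by positivity)
        · rw [ii_false hH']
          simp
    _ = (q:ℝ) ^ B * ((∑ H : Option (Fin (n+2)) → ZMod q, wm H) *
          ((∑ H' : Option (Fin (n+2)) → ZMod q, ii (H' none ≠ 0 ∧ Bd D' K0 H')) /
            (q:ℝ) ^ D')) := by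
        rw [sum_div, sum_mul_sum, mul_sum]
        refine sum_congr rfl fun H _ => ?_
        rw [mul_sum]
        refine sum_congr rfl fun H' _ => ?_
        field_simp
    _ ≤ (q:ℝ) ^ B * ((C1 * (La q : ℝ) ^ (n + 3)) *
          ((C2 * (La q : ℝ) ^ (n + 2) * 2 ^ (D' * La q) / 2 ^ K0) / (q:ℝ) ^ D')) := by
        have e1 : ∑ H' : Option (Fin (n+2)) → ZMod q, ii (H' none ≠ 0 ∧ Bd D' K0 H') ≤
            C2 * (La q : ℝ) ^ (n + 2) * 2 ^ (D' * La q) / 2 ^ K0 := by
          refine le_trans ?_ hb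
          rw [card_eq_sum_ii]
          exact sum_le_sum fun H' _ => ii_mono fun h => h.2
        have e2 : (0:ℝ) ≤ ∑ H : Option (Fin (n+2)) → ZMod q, wm H :=
          sum_nonneg fun H _ => wm_nonneg H
        have e3 : (0:ℝ) ≤ ∑ H' : Option (Fin (n+2)) → ZMod q, ii (H' none ≠ 0 ∧ Bd D' K0 H') :=
          sum_nonneg fun H _ => ii_nonneg _
        gcongr
    _ ≤ (q:ℝ) ^ B * ((C1 * (La q : ℝ) ^ (n + 3)) *
          ((C2 * (La q : ℝ) ^ (n + 2) * (q:ℝ) ^ D' / 2 ^ K0) / (q:ℝ) ^ D')) := by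
        have := two_pow_La (q := q) D'
        gcongr
    _ = (q:ℝ) ^ B * ((C1 * C2) * (La q : ℝ) ^ (2 * n + 5) / 2 ^ K0) := by
        rw [show 2 * n + 5 = (n + 3) + (n + 2) by ring, pow_add _ (n+3) (n+2)]
        field_simp
    _ ≤ (q:ℝ) ^ B * (⌈C1 * C2⌉₊ * (La q : ℝ) ^ (2 * n + 5) / 2 ^ K0) := by
        have := Nat.le_ceil (C1 * C2)
        gcongr

/-- number of levels whose join with `l` is not empty -/
lemma card_join (K7 r β : ℕ) (l : Fin (n+2) → ℕ) (hl : l ∈ IL M B n K7 r β) :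
    ((IL M B n K7 r β).filter (fun l' => 1 ≤ dm M B (mxv l l') r)).card ≤ (2 * n + 3) ^ (n + 2) := by
  classical
  have hsub : (IL M B n K7 r β).filter (fun l' => 1 ≤ dm M B (mxv l l') r) ⊆
      Fintype.piFinset (fun a => Icc (l a - (n + 1)) (l a + (n + 1))) := by
    intro l' hl'
    rw [mem_filter] at hl'
    obtain ⟨h1, h2⟩ := hl'
    rw [mem_IL] at h1 hl
    rw [Fintype.mem_piFinset]
    intro a
    rw [Finset.mem_Icc]
    unfold dm at h2
    have s1 : ∑ x ∈ univ.erase a, l x ≤ ∑ x ∈ univ.erase a, mxv l l' x :=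
      sum_le_sum fun x _ => le_max_left _ _
    have s2 : ∑ x ∈ univ.erase a, l' x ≤ ∑ x ∈ univ.erase a, mxv l l' x :=
      sum_le_sum fun x _ => le_max_right _ _
    have t1 := Finset.add_sum_erase univ l (mem_univ a)
    have t2 := Finset.add_sum_erase univ l' (mem_univ a)
    have t3 := Finset.add_sum_erase univ (mxv l l') (mem_univ a)
    have t4 : mxv l l' a = max (l a) (l' a) := rfl
    have t5 : l a ≤ max (l a) (l' a) := le_max_left _ _
    have t6 : l' a ≤ max (l a) (l' a) := le_max_right _ _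
    omega
  refine (card_le_card hsub).trans ?_
  rw [Fintype.card_piFinset]
  calc ∏ a, (Icc (l a - (n + 1)) (l a + (n + 1))).card ≤ ∏ _a : Fin (n+2), (2 * n + 3) := by
        refine prod_le_prod (fun _ _ => Nat.zero_le _) fun a _ => ?_
        rw [Nat.card_Icc]
        omega
    _ = (2 * n + 3) ^ (n + 2) := by simp

lemma OR_update (c : Flg q M B n) (ω : Pth q B) (l : Fin (n+2) → ℕ) (r : ℕ) {j : ℕ}
    (hj : r * M ≤ j) (z : Blk q B) (O : Fin (n+2) → ZMod q) :
    OR c (Function.update ω j z) l r O ↔ OR c ω l r O := by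
  unfold OR
  rw [AA_update c ω l hj z]

lemma OldG_update (c : Flg q M B n) (K0 K7 : ℕ) (ω : Pth q B) (r : ℕ) {j : ℕ}
    (hj : r * M ≤ j) (z : Blk q B) (h : OldG c K0 K7 ω r) :
    OldG c K0 K7 (Function.update ω j z) r := by
  intro β hβ l hl O hO hR
  rw [OR_update c ω l r hj z O] at hR
  exact h β hβ l hl O hO hR

/-- **C14** -/
theorem C14_of (hA : St_A6a) (h8 : St_C8) (h9 : St_C9) : St_C14 := by
  classical
  intro n
  obtain ⟨C1, hC1, hA'⟩ := hA (n + 3)
  obtain ⟨C8, hC8⟩ := h8 n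
  obtain ⟨C9, hC9⟩ := h9 n
  refine ⟨⌈C1 ^ 2⌉₊ + (2 * n + 3) ^ (n + 2) * (C8 * C9), ?_⟩
  intro q _ hq M B c hc K0 K7 hK ω r b hE hO hP
  have hw := hA' q hq (Option (Fin (n+2))) (card_opt n)
  set U : Blk q B → Pth q B := fun z => Function.update ω (r * M + (M - 1 - b)) z with hU
  set I := IL M B n K7 r b with hI
  set g : (Fin (n+2) → ℕ) → Blk q B → ℝ := fun l z => RR c (U z) l r * ii (Gd c K0 (U z) l r)
    with hg
  have hg0 : ∀ l z, 0 ≤ g l z := fun l z => mul_nonneg (RR_nonneg _ _ _ _) (ii_nonneg _)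
  have hLa : (0:ℝ) ≤ (La q : ℝ) ^ (2 * n + 6) := by positivity
  have hLe : (La q : ℝ) ^ (n+3) * (La q : ℝ) ^ (n+3) = (La q : ℝ) ^ (2 * n + 6) := by
    rw [← pow_add]; congr 1; ring
  -- distant pairs
  have hfar : ∀ l ∈ I, ∀ l' ∈ I, dm M B (mxv l l') r = 0 →
      ∑ z : Blk q B, g l z * g l' z ≤ (q:ℝ) ^ B * (⌈C1 ^ 2⌉₊ * (La q : ℝ) ^ (2 * n + 6)) := by
    intro l hl l' hl' h0
    have hqD : (0:ℝ) < (q:ℝ) ^ dm M B l r := pow_pos qpos _
    have hqD' : (0:ℝ) < (q:ℝ) ^ dm M B l' r := pow_pos qpos _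
    calc ∑ z : Blk q B, g l z * g l' z ≤ ∑ z : Blk q B, RR c (U z) l r * RR c (U z) l' r := by
          refine sum_le_sum fun z _ => ?_
          refine mul_le_mul ?_ ?_ (hg0 _ _) (RR_nonneg _ _ _ _)
          · exact mul_le_of_le_one_right (RR_nonneg _ _ _ _) (ii_le_one _)
          · exact mul_le_of_le_one_right (RR_nonneg _ _ _ _) (ii_le_one _)
      _ = ∑ H : Option (Fin (n+2)) → ZMod q, ∑ H' : Option (Fin (n+2)) → ZMod q,
            ((q:ℝ) ^ dm M B l r * wm H) * ((q:ℝ) ^ dm M B l' r * wm H') *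
            ∑ z : Blk q B, ii (H none ≠ 0 ∧ Rel c (U z) l r H) *
              ii (H' none ≠ 0 ∧ Rel c (U z) l' r H') := by
          simp only [RR_eq, sum_mul_sum]
          simp only [mul_sum]
          rw [sum_comm]
          refine sum_congr rfl fun H _ => ?_
          rw [sum_comm]
          refine sum_congr rfl fun H' _ => sum_congr rfl fun z _ => ?_
          ring
      _ ≤ ∑ H : Option (Fin (n+2)) → ZMod q, ∑ H' : Option (Fin (n+2)) → ZMod q,
            ((q:ℝ) ^ dm M B l r * wm H) * ((q:ℝ) ^ dm M B l' r * wm H') *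
            ((q:ℝ) ^ B / ((q:ℝ) ^ dm M B l r * (q:ℝ) ^ dm M B l' r)) := by
          refine sum_le_sum fun H _ => sum_le_sum fun H' _ => ?_
          have hw0 := wm_nonneg H
          have hw0' := wm_nonneg H'
          refine mul_le_mul_of_nonneg_left ?_ (by positivity)
          by_cases hH : H none ≠ 0
          · by_cases hH' : H' none ≠ 0
            · have e : ∀ z : Blk q B, ii (H none ≠ 0 ∧ Rel c (U z) l r H) =
                  ii (Rel c (U z) l r H) := fun z =>
                ii_congr ⟨fun h => h.2, fun h => ⟨hH, h⟩⟩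
              have e' : ∀ z : Blk q B, ii (H' none ≠ 0 ∧ Rel c (U z) l' r H') =
                  ii (Rel c (U z) l' r H') := fun z =>
                ii_congr ⟨fun h => h.2, fun h => ⟨hH', h⟩⟩
              simp only [e, e']
              exact sum_RR_pair_aux hc hl hl' hE h0 hP H H' hH hH'
            · have e' : ∀ z : Blk q B, ii (H' none ≠ 0 ∧ Rel c (U z) l' r H') = 0 := fun z =>
                ii_false fun h => hH' h.1
              simp only [e', mul_zero, sum_const_zero]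
              positivity
          · have e : ∀ z : Blk q B, ii (H none ≠ 0 ∧ Rel c (U z) l r H) = 0 := fun z =>
              ii_false fun h => hH h.1
            simp only [e, zero_mul, sum_const_zero]
            positivity
      _ = (q:ℝ) ^ B * ((∑ H : Option (Fin (n+2)) → ZMod q, wm H) *
            (∑ H' : Option (Fin (n+2)) → ZMod q, wm H')) := by
          rw [sum_mul_sum, mul_sum]
          refine sum_congr rfl fun H _ => ?_
          rw [mul_sum]
          refine sum_congr rfl fun H' _ => ?_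
          field_simp
      _ ≤ (q:ℝ) ^ B * ((C1 * (La q : ℝ) ^ (n + 3)) * (C1 * (La q : ℝ) ^ (n + 3))) := by
          have e2 : (0:ℝ) ≤ ∑ H : Option (Fin (n+2)) → ZMod q, wm H :=
            sum_nonneg fun H _ => wm_nonneg H
          gcongr
      _ = (q:ℝ) ^ B * (C1 ^ 2 * (La q : ℝ) ^ (2 * n + 6)) := by
          rw [← hLe]; ring
      _ ≤ _ := by
          have := Nat.le_ceil (C1 ^ 2)
          gcongr
  -- close pairs
  have hclose : ∀ l ∈ I, ∀ l' ∈ I,
      ∑ z : Blk q B, g l z * g l' z ≤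
        (q:ℝ) ^ B * ((C8 * C9 : ℕ) * (La q : ℝ) ^ (2 * n + 6) * 2 ^ K0) := by
    intro l hl l' hl'
    calc ∑ z : Blk q B, g l z * g l' z ≤
        ∑ z : Blk q B, RR c (U z) l r * (C9 * (La q : ℝ) ^ (n + 3) * 2 ^ K0) := by
          refine sum_le_sum fun z _ => ?_
          refine mul_le_mul ?_ ?_ (hg0 _ _) (RR_nonneg _ _ _ _)
          · exact mul_le_of_le_one_right (RR_nonneg _ _ _ _) (ii_le_one _)
          · by_cases hG : Gd c K0 (U z) l' r
            · simp only [hg]
              rw [ii_true hG, mul_one]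
              exact hC9 q hq M B c K0 K7 (U z) r b l' b.2 hl'
                (OldG_update c K0 K7 ω r (by omega) z hO) hG
            · simp only [hg]
              rw [ii_false hG, mul_zero]
              positivity
      _ = (∑ z : Blk q B, RR c (U z) l r) * (C9 * (La q : ℝ) ^ (n + 3) * 2 ^ K0) := by
          rw [sum_mul]
      _ ≤ ((q:ℝ) ^ B * (C8 * (La q : ℝ) ^ (n + 3))) * (C9 * (La q : ℝ) ^ (n + 3) * 2 ^ K0) := by
          refine mul_le_mul_of_nonneg_right ?_ (by positivity)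
          exact hC8 q hq M B c hc K7 (by omega) ω r b l hl hE
      _ = _ := by
          rw [← hLe]; push_cast; ring
  -- the sum over the pairs
  have hexp : ∑ z : Blk q B, (∑ l ∈ I, g l z) ^ 2 =
      ∑ l ∈ I, ∑ l' ∈ I, ∑ z : Blk q B, g l z * g l' z := by
    simp only [sq, sum_mul_sum]
    rw [sum_comm]
    refine sum_congr rfl fun l _ => ?_
    rw [sum_comm]
  show ∑ z : Blk q B, (∑ l ∈ I, g l z) ^ 2 ≤ _
  rw [hexp]
  have hin : ∀ l ∈ I, ∑ l' ∈ I, ∑ z : Blk q B, g l z * g l' z ≤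
      (I.card : ℝ) * ((q:ℝ) ^ B * (⌈C1 ^ 2⌉₊ * (La q : ℝ) ^ (2 * n + 6))) +
      ((2 * n + 3) ^ (n + 2) : ℕ) *
        ((q:ℝ) ^ B * ((C8 * C9 : ℕ) * (La q : ℝ) ^ (2 * n + 6) * 2 ^ K0)) := by
    intro l hl
    rw [← sum_filter_add_sum_filter_not I (fun l' => 1 ≤ dm M B (mxv l l') r), add_comm]
    refine add_le_add ?_ ?_
    · calc ∑ l' ∈ I.filter (fun l' => ¬ 1 ≤ dm M B (mxv l l') r), ∑ z : Blk q B, g l z * g l' z
          ≤ ∑ l' ∈ I.filter (fun l' => ¬ 1 ≤ dm M B (mxv l l') r),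
            ((q:ℝ) ^ B * (⌈C1 ^ 2⌉₊ * (La q : ℝ) ^ (2 * n + 6))) := by
            refine sum_le_sum fun l' hl' => ?_
            rw [mem_filter] at hl'
            exact hfar l hl l' hl'.1 (by omega)
        _ = ((I.filter (fun l' => ¬ 1 ≤ dm M B (mxv l l') r)).card : ℝ) *
            ((q:ℝ) ^ B * (⌈C1 ^ 2⌉₊ * (La q : ℝ) ^ (2 * n + 6))) := by
            rw [sum_const, nsmul_eq_mul]
        _ ≤ _ := by
            refine mul_le_mul_of_nonneg_right ?_ (by positivity)
            exact_mod_cast card_filter_le _ _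
    · calc ∑ l' ∈ I.filter (fun l' => 1 ≤ dm M B (mxv l l') r), ∑ z : Blk q B, g l z * g l' z
          ≤ ∑ l' ∈ I.filter (fun l' => 1 ≤ dm M B (mxv l l') r),
            ((q:ℝ) ^ B * ((C8 * C9 : ℕ) * (La q : ℝ) ^ (2 * n + 6) * 2 ^ K0)) := by
            refine sum_le_sum fun l' hl' => ?_
            rw [mem_filter] at hl'
            exact hclose l hl l' hl'.1
        _ = ((I.filter (fun l' => 1 ≤ dm M B (mxv l l') r)).card : ℝ) *
            ((q:ℝ) ^ B * ((C8 * C9 : ℕ) * (La q : ℝ) ^ (2 * n + 6) * 2 ^ K0)) := by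
            rw [sum_const, nsmul_eq_mul]
        _ ≤ _ := by
            refine mul_le_mul_of_nonneg_right ?_ (by positivity)
            exact_mod_cast card_join K7 r b l hl
  refine (sum_le_sum hin).trans ?_
  rw [sum_const, nsmul_eq_mul]
  push_cast
  have hP1 : (0:ℝ) ≤ (q:ℝ) ^ B * (La q : ℝ) ^ (2 * n + 6) := by positivity
  have hc0 : (0:ℝ) ≤ (I.card : ℝ) := Nat.cast_nonneg _
  have hK0 : (0:ℝ) ≤ 2 ^ K0 := by positivity
  have hx : (0:ℝ) ≤ (⌈C1 ^ 2⌉₊ : ℝ) := Nat.cast_nonneg _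
  have hy : (0:ℝ) ≤ (2 * (n:ℝ) + 3) ^ (n + 2) * (C8 * C9) := by positivity
  have hz : 0 ≤ (q:ℝ) ^ B * (La q : ℝ) ^ (2 * n + 6) * ((⌈C1 ^ 2⌉₊ : ℝ) * (I.card * 2 ^ K0) +
      ((2 * (n:ℝ) + 3) ^ (n + 2) * (C8 * C9)) * (I.card : ℝ) ^ 2) := by positivity
  nlinarith [hz]

end gen

end Pool.Agent.Y290.SD
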